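import Mathlib

set_option autoImplicit false

/-!
# Secret sum computation with Gaussian sources

Call a vertex `v` *clean* for the source `s` if there is a path from `s` to `v` without wiretapped
edges. Every edge carries all differences `X_s - X_t` that are known at its first vertex, and an
edge that is not wiretapped also carries all `X_s` such that its first vertex is clean for `s`. The
differences are jointly Gaussian and uncorrelated with the sum. Along an undirected path in the
complement of the secrecy closure any two consecutive vertices are clean for a common source, so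
the destination obtains all differences, and one of the `X_s`.
-/

open MeasureTheory ProbabilityTheory Relation

namespace Pool.Agent.Results.MP_121ed1_lc.SecretSum

/-- Networks: directed acyclic graphs that are weakly connected and have exactly one vertex `d` of
out-degree `0`. -/
structure Network (V : Type) where
  /-- The edges. -/
  E : V → V → Prop
  /-- The destination. -/
  d : V
  acyclic : ∀ v, ¬ TransGen E v v
  connected : ∀ u v, ReflTransGen (fun a b => E a b ∨ E b a) u v
  sink : ∀ v, (∀ w, ¬ E v w) ↔ v = d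

namespace Network

variable {V : Type} (N : Network V)

/-- Sources: vertices of in-degree `0`. -/
def IsSource (v : V) : Prop := ∀ u, ¬ N.E u v

/-- The set of sources. -/
abbrev Src : Type := {v : V // N.IsSource v}

/-- Coding functions. The edge from `v` to `w` carries a real vector of dimension `dim v w`, which
is a function of the signals on the edges into `v` and a further real number (the value of the
source if `v` is a source, and `0` otherwise). -/
structure Scheme where
  /-- The dimensions of the signals. -/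
  dim : V → V → ℕ
  /-- The coding functions. -/
  f : ∀ v w : V, (∀ u : {u // N.E u v}, Fin (dim u v) → ℝ) × ℝ → (Fin (dim v w) → ℝ)
  measurable_f : ∀ v w, Measurable (f v w)
  /-- The function of the destination. -/
  g : (∀ u : {u // N.E u N.d}, Fin (dim u N.d) → ℝ) → ℝ
  measurable_g : Measurable g

variable {N}

/-- Linear schemes. -/
def Scheme.Linear (c : N.Scheme) : Prop :=
  (∀ v w, IsLinearMap ℝ (c.f v w)) ∧ IsLinearMap ℝ c.g

open Classical in
/-- The value of the source at `v`, if `v` is a source, and `0` otherwise. -/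
noncomputable def own (x : N.Src → ℝ) (v : V) : ℝ := if h : N.IsSource v then x ⟨v, h⟩ else 0

/-- `Y x v w` is the signal on the edge from `v` to `w` if `x` are the values of the sources. (As the
graph is acyclic, the signals on the edges are determined by the coding functions.) -/
def Signals (c : N.Scheme) (Y : (N.Src → ℝ) → ∀ v w : V, Fin (c.dim v w) → ℝ) : Prop :=
  ∀ x v w, N.E v w → Y x v w = c.f v w (fun u => Y x u.1 v, own x v)

variable (N)

open Classical in
/-- The joint law of the independent sources with law `N(0,1)`. -/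
noncomputable def law [Fintype V] : Measure (N.Src → ℝ) := Measure.pi fun _ => gaussianReal 0 1

variable {N}

open Classical in
/-- The scheme with signals `Y` is secret for the wiretapped edges `W`: the destination outputs the
sum of the sources, and the family of the signals on the wiretapped edges is independent of the
sum. -/
def Secret [Fintype V] (W : V → V → Prop) (c : N.Scheme)
    (Y : (N.Src → ℝ) → ∀ v w : V, Fin (c.dim v w) → ℝ) : Prop :=
  (∀ x, c.g (fun u => Y x u.1 N.d) = ∑ s, x s) ∧
    IndepFun (fun x => fun p : {p : V × V // W p.1 p.2} => Y x p.1.1 p.1.2)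
      (fun x => ∑ s, x s) N.law

/-- Paths that use no edge of `W`. -/
def Clean (N : Network V) (W : V → V → Prop) : V → V → Prop :=
  ReflTransGen fun a b => N.E a b ∧ ¬ W a b

/-- The secrecy closure of `W`. -/
def scl (N : Network V) (W : V → V → Prop) (u v : V) : Prop :=
  W u v ∨ (N.E u v ∧ ∀ s, N.IsSource s → ¬ N.Clean W s u)

/-- Condition (C): every source is connected with the destination in the undirected graph of the
edges that are not in the secrecy closure. -/
def CondC (N : Network V) (W : V → V → Prop) : Prop :=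
  ∀ s, N.IsSource s →
    ReflTransGen (fun a b => (N.E a b ∧ ¬ N.scl W a b) ∨ (N.E b a ∧ ¬ N.scl W b a)) s N.d

/-! ### Known sources and differences -/

/-- The source `s` is known at `v`. -/
def A (N : Network V) (W : V → V → Prop) (v : V) (s : N.Src) : Prop := N.Clean W s.1 v

/-- The difference `X_s - X_t` is known at `v`. -/
def D (N : Network V) (W : V → V → Prop) (v : V) (s t : N.Src) : Prop :=
  ∃ u, N.A W u s ∧ N.A W u t ∧ ReflTransGen N.E u v

variable {W : V → V → Prop}

theorem A_cases {v : V} {s : N.Src} (h : N.A W v s) :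
    v = s.1 ∨ ∃ u, N.E u v ∧ ¬ W u v ∧ N.A W u s := by
  rcases ReflTransGen.cases_tail h with h | ⟨u, h1, h2⟩
  · exact Or.inl h
  · exact Or.inr ⟨u, h2.1, h2.2, h1⟩

theorem D_cases {v : V} {s t : N.Src} (h : N.D W v s t) :
    (N.A W v s ∧ N.A W v t) ∨ ∃ u, N.E u v ∧ N.D W u s t := by
  obtain ⟨u, h1, h2, h3⟩ := h
  rcases ReflTransGen.cases_tail h3 with h | ⟨w, h4, h5⟩
  · subst h
    exact Or.inl ⟨h1, h2⟩
  · exact Or.inr ⟨w, h5, u, h1, h2, h4⟩

theorem D_step {u v : V} {s t : N.Src} (h : N.E u v) (hD : N.D W u s t) : N.D W v s t := by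
  obtain ⟨w, h1, h2, h3⟩ := hD
  exact ⟨w, h1, h2, h3.tail h⟩

variable [Fintype V]

/-- Every vertex has a path to the destination. -/
theorem reach (v : V) : ReflTransGen N.E v N.d := by
  have hwf : WellFounded (fun a b => TransGen N.E b a) := by
    have h1 : IsTrans V (fun a b => TransGen N.E b a) := ⟨fun a b c h1 h2 => h2.trans h1⟩
    have h2 : Std.Irrefl (fun a b => TransGen N.E b a) := ⟨fun a h => N.acyclic a h⟩
    exact Finite.wellFounded_of_trans_of_irrefl _
  induction v using hwf.induction with
  | _ v ih =>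
    by_cases hv : v = N.d
    · subst hv
      exact ReflTransGen.refl
    · have h1 : ¬ ∀ w, ¬ N.E v w := fun h => hv ((N.sink v).mp h)
      push Not at h1
      obtain ⟨w, hw⟩ := h1
      exact ReflTransGen.head hw (ih w (TransGen.single hw))

theorem d_not_source [Nontrivial V] : ¬ N.IsSource N.d := by
  intro h
  obtain ⟨v, hv⟩ := exists_ne N.d
  rcases ReflTransGen.cases_tail (reach (N := N) v) with h1 | ⟨u, -, h2⟩
  · exact hv h1.symm
  · exact h u h2

/-! ### The scheme -/

section Construction

open Classical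

variable (N W)

/-- The dimension. -/
noncomputable def K : ℕ := Fintype.card (N.Src ⊕ N.Src × N.Src)

/-- The coordinates. -/
noncomputable def e : Fin N.K ≃ N.Src ⊕ N.Src × N.Src := (Fintype.equivFin _).symm

/-- The space of the inputs of a vertex. -/
abbrev Inp (v : V) : Type := (∀ _u : {u // N.E u v}, Fin N.K → ℝ) × ℝ

/-- The coordinate `c` of the signal on the edge from `u` to `v`. -/
noncomputable def inp {v : V} (u : V) (h : N.E u v) (c : N.Src ⊕ N.Src × N.Src) :
    N.Inp v →ₗ[ℝ] ℝ where
  toFun z := z.1 ⟨u, h⟩ (N.e.symm c)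
  map_add' _ _ := rfl
  map_smul' _ _ := rfl

/-- The coordinate `c` of the signal on the edge from `u` to the destination. -/
noncomputable def inpd (u : V) (h : N.E u N.d) (c : N.Src ⊕ N.Src × N.Src) :
    (∀ _u : {u // N.E u N.d}, Fin N.K → ℝ) →ₗ[ℝ] ℝ where
  toFun z := z ⟨u, h⟩ (N.e.symm c)
  map_add' _ _ := rfl
  map_smul' _ _ := rfl

/-- The value of a source. -/
def pr (s : N.Src) : (N.Src → ℝ) →ₗ[ℝ] ℝ where
  toFun x := x s
  map_add' _ _ := rfl
  map_smul' _ _ := rfl

/-- The value of the source `s` at `v`. -/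
noncomputable def getL (v : V) (s : N.Src) : N.Inp v →ₗ[ℝ] ℝ :=
  if v = s.1 then LinearMap.snd ℝ _ _ else
    if h : ∃ u, N.E u v ∧ ¬ W u v ∧ N.A W u s then N.inp h.choose h.choose_spec.1 (Sum.inl s)
    else 0

/-- The coding functions, by coordinates. -/
noncomputable def coefL (v w : V) : N.Src ⊕ N.Src × N.Src → (N.Inp v →ₗ[ℝ] ℝ)
  | Sum.inl s => if ¬ W v w ∧ N.A W v s then N.getL W v s else 0
  | Sum.inr (s, t) => if N.A W v s ∧ N.A W v t then N.getL W v s - N.getL W v t else
      if h : ∃ u, N.E u v ∧ N.D W u s t then N.inp h.choose h.choose_spec.1 (Sum.inr (s, t))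
      else 0

/-- The coding functions. -/
noncomputable def fL (v w : V) : N.Inp v →ₗ[ℝ] (Fin N.K → ℝ) :=
  LinearMap.pi fun j => N.coefL W v w (N.e j)

/-- The signals, by coordinates. -/
noncomputable def valL (v w : V) : N.Src ⊕ N.Src × N.Src → ((N.Src → ℝ) →ₗ[ℝ] ℝ)
  | Sum.inl s => if ¬ W v w ∧ N.A W v s then N.pr s else 0
  | Sum.inr (s, t) => if N.D W v s t then N.pr s - N.pr t else 0

/-- The signals. -/
noncomputable def Y (x : N.Src → ℝ) (v w : V) (j : Fin N.K) : ℝ := N.valL W v w (N.e j) x

variable {N W}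

theorem valL_inl (v w : V) (s : N.Src) : N.valL W v w (Sum.inl s) =
    if ¬ W v w ∧ N.A W v s then N.pr s else 0 := rfl

theorem valL_inr (v w : V) (s t : N.Src) : N.valL W v w (Sum.inr (s, t)) =
    if N.D W v s t then N.pr s - N.pr t else 0 := rfl

theorem coefL_inl (v w : V) (s : N.Src) : N.coefL W v w (Sum.inl s) =
    if ¬ W v w ∧ N.A W v s then N.getL W v s else 0 := rfl

theorem coefL_inr (v w : V) (s t : N.Src) : N.coefL W v w (Sum.inr (s, t)) =
    if N.A W v s ∧ N.A W v t then N.getL W v s - N.getL W v t else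
      if h : ∃ u, N.E u v ∧ N.D W u s t then N.inp h.choose h.choose_spec.1 (Sum.inr (s, t))
      else 0 := rfl

theorem inp_Y (x : N.Src → ℝ) (r : ℝ) {u v : V} (h : N.E u v) (c : N.Src ⊕ N.Src × N.Src) :
    N.inp u h c (fun u => N.Y W x u.1 v, r) = N.valL W u v c x := by
  change N.Y W x u v (N.e.symm c) = _
  unfold Y
  rw [Equiv.apply_symm_apply]

theorem getL_Y (x : N.Src → ℝ) {v : V} {s : N.Src} (h : N.A W v s) :
    N.getL W v s (fun u => N.Y W x u.1 v, own x v) = x s := by
  unfold getL
  by_cases hv : v = s.1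
  · rw [if_pos hv]
    subst hv
    change own x s.1 = x s
    unfold own
    rw [dif_pos s.2]
  · rw [if_neg hv]
    have h1 : ∃ u, N.E u v ∧ ¬ W u v ∧ N.A W u s := (A_cases h).resolve_left hv
    rw [dif_pos h1, inp_Y]
    have h2 := h1.choose_spec
    rw [valL_inl, if_pos ⟨h2.2.1, h2.2.2⟩]
    rfl

theorem signals_Y (x : N.Src → ℝ) (v w : V) :
    N.Y W x v w = N.fL W v w (fun u => N.Y W x u.1 v, own x v) := by
  funext j
  change N.valL W v w (N.e j) x = N.coefL W v w (N.e j) _
  rcases N.e j with s | ⟨s, t⟩
  · rw [valL_inl, coefL_inl]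
    by_cases h : ¬ W v w ∧ N.A W v s
    · rw [if_pos h, if_pos h, getL_Y x h.2]
      rfl
    · rw [if_neg h, if_neg h]
      rfl
  · rw [valL_inr, coefL_inr]
    by_cases h : N.A W v s ∧ N.A W v t
    · rw [if_pos h, if_pos ⟨v, h.1, h.2, ReflTransGen.refl⟩]
      rw [LinearMap.sub_apply, LinearMap.sub_apply, getL_Y x h.1, getL_Y x h.2]
      rfl
    · rw [if_neg h]
      by_cases h1 : ∃ u, N.E u v ∧ N.D W u s t
      · rw [dif_pos h1, inp_Y]
        have h2 := h1.choose_spec
        rw [valL_inr, if_pos h2.2, if_pos (D_step h2.1 h2.2)]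
      · rw [dif_neg h1, if_neg]
        · rfl
        · intro h2
          rcases D_cases h2 with h3 | h3
          · exact h h3
          · exact h1 h3

/-- The functions that are linear functions of the signals received by the destination. -/
def Comp (N : Network V) (W : V → V → Prop) (g : (N.Src → ℝ) → ℝ) : Prop :=
  ∃ ℓ : (∀ _u : {u // N.E u N.d}, Fin N.K → ℝ) →ₗ[ℝ] ℝ, ∀ x, ℓ (fun u => N.Y W x u.1 N.d) = g x

theorem Comp.add {g g' : (N.Src → ℝ) → ℝ} (h : N.Comp W g) (h' : N.Comp W g') :
    N.Comp W fun x => g x + g' x := by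
  obtain ⟨ℓ, hℓ⟩ := h
  obtain ⟨ℓ', hℓ'⟩ := h'
  refine ⟨ℓ + ℓ', fun x => ?_⟩
  rw [LinearMap.add_apply, hℓ, hℓ']

theorem Comp.sum {g : N.Src → (N.Src → ℝ) → ℝ} (h : ∀ s, N.Comp W (g s)) :
    N.Comp W fun x => ∑ s, g s x := by
  choose ℓ hℓ using h
  refine ⟨∑ s, ℓ s, fun x => ?_⟩
  rw [LinearMap.sum_apply]
  exact Finset.sum_congr rfl fun s _ => hℓ s x

theorem comp_single [Nontrivial V] {r : N.Src} (hr : N.A W N.d r) : N.Comp W fun x => x r := by
  rcases A_cases hr with h1 | ⟨u, h1, h2, h3⟩
  · exact absurd (h1 ▸ r.2) d_not_source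
  · refine ⟨N.inpd u h1 (Sum.inl r), fun x => ?_⟩
    change N.Y W x u N.d (N.e.symm (Sum.inl r)) = x r
    unfold Y
    rw [Equiv.apply_symm_apply]
    rw [valL_inl, if_pos ⟨h2, h3⟩]
    rfl

theorem comp_diff [Nontrivial V] {s t : N.Src} (h : N.D W N.d s t) :
    N.Comp W fun x => x s - x t := by
  rcases D_cases h with h1 | ⟨u, h1, h2⟩
  · obtain ⟨ℓ, hℓ⟩ := comp_single h1.1
    obtain ⟨ℓ', hℓ'⟩ := comp_single h1.2
    exact ⟨ℓ - ℓ', fun x => by rw [LinearMap.sub_apply, hℓ, hℓ']⟩
  · refine ⟨N.inpd u h1 (Sum.inr (s, t)), fun x => ?_⟩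
    change N.Y W x u N.d (N.e.symm (Sum.inr (s, t))) = x s - x t
    unfold Y
    rw [Equiv.apply_symm_apply]
    rw [valL_inr, if_pos h2]
    rfl

/-- Two vertices joined by an edge outside the secrecy closure are clean for a common source. -/
theorem common {a b : V} (h : N.E a b ∧ ¬ N.scl W a b) : ∃ t : N.Src, N.A W a t ∧ N.A W b t := by
  obtain ⟨h1, h2⟩ := h
  unfold scl at h2
  push Not at h2
  obtain ⟨h3, h4⟩ := h2
  obtain ⟨s, hs, h5⟩ := h4 h1
  exact ⟨⟨s, hs⟩, h5, h5.tail ⟨h1, h3⟩⟩

theorem comp_source [Nontrivial V] {v : V}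
    (h : ReflTransGen (fun a b => (N.E a b ∧ ¬ N.scl W a b) ∨ (N.E b a ∧ ¬ N.scl W b a)) v N.d) :
    ∀ s : N.Src, N.A W v s → N.Comp W fun x => x s := by
  induction h using ReflTransGen.head_induction_on with
  | refl => exact fun s hs => comp_single hs
  | @head a c h _ ih =>
    intro s hs
    obtain ⟨t, ht1, ht2⟩ : ∃ t : N.Src, N.A W a t ∧ N.A W c t := by
      rcases h with h | h
      · exact common h
      · obtain ⟨t, h1, h2⟩ := common h
        exact ⟨t, h2, h1⟩
    have h1 := comp_diff (W := W) (s := s) (t := t) ⟨a, hs, ht1, reach a⟩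
    have h2 := h1.add (ih t ht2)
    simpa using h2

theorem comp_sum [Nontrivial V] (hC : N.CondC W) : N.Comp W fun x => ∑ s, x s :=
  Comp.sum fun s => comp_source (hC s.1 s.2) s ReflTransGen.refl

/-! ### Secrecy -/

theorem indep (N : Network V) (W : V → V → Prop) :
    IndepFun (fun x => fun p : {p : V × V // W p.1 p.2} => N.Y W x p.1.1 p.1.2)
      (fun x => ∑ s, x s) N.law := by
  have hlaw : ∀ s : N.Src, HasGaussianLaw (fun x : N.Src → ℝ => x s) N.law := by
    intro s
    have h1 : (N.law.map fun x : N.Src → ℝ => x s) = gaussianReal 0 1 := by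
      unfold law
      exact (measurePreserving_eval _ s).map_eq
    constructor
    rw [h1]
    infer_instance
  have hindep : iIndepFun (fun (s : N.Src) (x : N.Src → ℝ) => x s) N.law := by
    unfold law
    exact iIndepFun_pi (X := fun _ => id) (fun _ => aemeasurable_id)
  have hprob : IsProbabilityMeasure N.law := by
    unfold law
    infer_instance
  have hjoint : HasGaussianLaw (fun x : N.Src → ℝ => (x : N.Src → ℝ)) N.law :=
    iIndepFun.hasGaussianLaw hlaw hindep
  -- the two families
  let ι := {p : V × V // W p.1 p.2} × Fin N.K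
  let X : ι → (N.Src → ℝ) → ℝ := fun i x => N.valL W i.1.1.1 i.1.1.2 (N.e i.2) x
  let Z : Unit → (N.Src → ℝ) → ℝ := fun _ x => ∑ s, x s
  let L : (N.Src → ℝ) →ₗ[ℝ] ((ι → ℝ) × (Unit → ℝ)) :=
    (LinearMap.pi fun i : ι => N.valL W i.1.1.1 i.1.1.2 (N.e i.2)).prod
      (LinearMap.pi fun _ => ∑ s, N.pr s)
  have hXZ : HasGaussianLaw (fun x => (fun i => X i x, fun j => Z j x)) N.law := by
    have h1 := hjoint.map_fun (LinearMap.toContinuousLinearMap L)
    have h2 : (fun x : N.Src → ℝ => (LinearMap.toContinuousLinearMap L) x) =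
        fun x => (fun i => X i x, fun j => Z j x) := by
      funext x
      refine Prod.ext rfl ?_
      funext j
      change (∑ s, N.pr s) x = ∑ s, x s
      rw [LinearMap.sum_apply]
      rfl
    rw [← h2]
    exact h1
  -- the covariances
  have hL2 : ∀ s : N.Src, MemLp (fun x : N.Src → ℝ => x s) 2 N.law := fun s => (hlaw s).memLp_two
  have hcovself : ∀ s : N.Src, cov[fun x : N.Src → ℝ => x s, fun x => x s; N.law] = 1 := by
    intro s
    rw [covariance_self (hL2 s).aemeasurable]
    have h1 : Var[fun x : N.Src → ℝ => x s; N.law] =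
        Var[id; N.law.map (fun x : N.Src → ℝ => x s)] := by
      rw [variance_map aemeasurable_id (hL2 s).aemeasurable]
      rfl
    rw [h1]
    have h2 : (N.law.map fun x : N.Src → ℝ => x s) = gaussianReal 0 1 := by
      unfold law
      exact (measurePreserving_eval _ s).map_eq
    rw [h2, variance_id_gaussianReal]
    rfl
  have hcovne : ∀ s t : N.Src, s ≠ t →
      cov[fun x : N.Src → ℝ => x s, fun x => x t; N.law] = 0 := by
    intro s t hst
    exact (hindep.indepFun hst).covariance_eq_zero (hL2 s) (hL2 t)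
  have hcov1 : ∀ s : N.Src, cov[fun x : N.Src → ℝ => x s, fun x => ∑ t, x t; N.law] = 1 := by
    intro s
    rw [covariance_fun_sum_right (fun t => hL2 t) (hL2 s)]
    rw [Finset.sum_eq_single s]
    · exact hcovself s
    · intro t _ hts
      exact hcovne s t hts.symm
    · intro h
      exact absurd (Finset.mem_univ _) h
  have hsumL2 : MemLp (fun x : N.Src → ℝ => ∑ t, x t) 2 N.law :=
    memLp_finsetSum _ fun t _ => hL2 t
  have hcov : ∀ i j, cov[X i, Z j; N.law] = 0 := by
    rintro ⟨⟨⟨v, w⟩, hW⟩, k⟩ j
    change cov[fun x => N.valL W v w (N.e k) x, fun x => ∑ t, x t; N.law] = 0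
    rcases N.e k with s | ⟨s, t⟩
    · have h1 : N.valL W v w (Sum.inl s) = 0 := by
        rw [valL_inl, if_neg fun h => h.1 hW]
      rw [h1]
      exact covariance_zero_left
    · by_cases hD : N.D W v s t
      · have h1 : N.valL W v w (Sum.inr (s, t)) = N.pr s - N.pr t := by
          rw [valL_inr, if_pos hD]
        rw [h1]
        have h2 := covariance_fun_sub_left (hL2 s) (hL2 t) hsumL2
        rw [hcov1 s, hcov1 t, sub_self] at h2
        exact h2
      · have h1 : N.valL W v w (Sum.inr (s, t)) = 0 := by
          rw [valL_inr, if_neg hD]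
        rw [h1]
        exact covariance_zero_left
  have hind := hXZ.indepFun_of_covariance_eval hcov
  have hψ : Measurable (fun z : Unit → ℝ => z ()) := measurable_pi_apply ()
  have hφ : Measurable (fun (y : ι → ℝ) (p : {p : V × V // W p.1 p.2}) (k : Fin N.K) =>
    y (p, k)) := by fun_prop
  exact hind.comp hφ hψ

end Construction

end Network

open Network

/-- For every network with at least two vertices and every set of wiretapped edges that satisfies
condition (C), a linear secret coding scheme exists. -/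
theorem result {V : Type} [Fintype V] [Nontrivial V] (N : Network V) (W : V → V → Prop)
    (_hW : ∀ u v, W u v → N.E u v) (hC : N.CondC W) :
    ∃ (c : N.Scheme) (Y : (N.Src → ℝ) → ∀ v w : V, Fin (c.dim v w) → ℝ),
      c.Linear ∧ Signals c Y ∧ Secret W c Y := by
  classical
  obtain ⟨ℓ, hℓ⟩ := comp_sum hC
  let c : N.Scheme :=
    { dim := fun _ _ => N.K
      f := fun v w => N.fL W v w
      measurable_f := fun v w => (N.fL W v w).continuous_of_finiteDimensional.measurable
      g := ℓ
      measurable_g := ℓ.continuous_of_finiteDimensional.measurable }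
  refine ⟨c, N.Y W, ⟨fun v w => (N.fL W v w).isLinear, ℓ.isLinear⟩, ?_, ?_, ?_⟩
  · intro x v w _
    exact signals_Y x v w
  · intro x
    exact hℓ x
  · exact indep N W

end Pool.Agent.Results.MP_121ed1_lc.SecretSum
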